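import Mathlib
import Pool.Agent.Lead.AgreeEx

set_option autoImplicit false

namespace Pool.Agent.Results.MP_880652_co.NotUnimodal

/-- The number of comparable pairs `x < y` of the poset `X` that agree with the linear order `L`.
A linear order of the `n`-element set `X` is given by the bijection `L` sending each element to its
position; `x` precedes `y` when `L x < L y`. -/
noncomputable def agreements {X : Type} [PartialOrder X] {n : ℕ} (L : X ≃ Fin n) : ℕ :=
  Nat.card {p : X × X // p.1 < p.2 ∧ L p.1 < L p.2}

/-- `a_i(P)`: the number of linear orders of `X` with exactly `i` agreeing comparable pairs -/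
noncomputable def a (X : Type) [PartialOrder X] (n i : ℕ) : ℕ :=
  Nat.card {L : X ≃ Fin n // agreements L = i}

open Pool.Agent.Lead.AgreeEx in
/-- There is a seven-element poset with 10 comparable pairs for which `a_5 < a_4` and `a_5 < a_6`. -/
theorem result : ∃ (X : Type) (_ : PartialOrder X), Nat.card X = 7 ∧
    Nat.card {p : X × X // p.1 < p.2} = 10 ∧ a X 7 5 < a X 7 4 ∧ a X 7 5 < a X 7 6 := by
  have tr : ∀ x y z : Fin 7, ltb x y = true → ltb y z = true → ltb x z = true := by decide +kernel
  have asym : ∀ x y : Fin 7, ltb x y = true → ¬ (y = x ∨ ltb y x = true) := by decide +kernel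
  let P : PartialOrder (Fin 7) :=
    { le := fun x y => x = y ∨ ltb x y = true
      lt := fun x y => ltb x y = true
      le_refl := fun x => Or.inl rfl
      le_trans := by
        intro x y z h1 h2
        rcases h1 with rfl | h1
        · exact h2
        · rcases h2 with rfl | h2
          · exact Or.inr h1
          · exact Or.inr (tr _ _ _ h1 h2)
      lt_iff_le_not_ge := by
        intro x y
        constructor
        · intro h
          exact ⟨Or.inr h, asym _ _ h⟩
        · rintro ⟨h1 | h1, h2⟩
          · exact absurd (Or.inl h1.symm) h2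
          · exact h1
      le_antisymm := by
        intro x y h1 h2
        rcases h1 with h1 | h1
        · exact h1
        · exact absurd h2 (asym _ _ h1) }
  have hag : ∀ L : Fin 7 ≃ Fin 7, @agreements (Fin 7) P 7 L = agreeB L := by
    intro L
    unfold agreements
    have h1 : Nat.card {p : Fin 7 × Fin 7 // @LT.lt (Fin 7) P.toLT p.1 p.2 ∧ L p.1 < L p.2} =
        (prs.toFinset.filter (fun p => L p.1 < L p.2)).card := by
      apply Nat.subtype_card
      intro p
      rw [Finset.mem_filter, List.mem_toFinset]
      have : (@LT.lt (Fin 7) P.toLT p.1 p.2) ↔ p ∈ prs := by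
        change ltb p.1 p.2 = true ↔ p ∈ prs
        unfold ltb
        simp
      rw [this]
    rw [h1, Finset.card_filter, List.sum_toFinset _ (by decide)]
    rfl
  have ha : ∀ i, @a (Fin 7) P 7 i =
      (Finset.univ.filter (fun f : Equiv.Perm (Fin 7) => agreeB f = i)).card := by
    intro i
    unfold a
    simp only [hag]
    rw [Nat.card_eq_fintype_card, Fintype.card_subtype]
  refine ⟨Fin 7, P, by simp, ?_, ?_, ?_⟩
  · have h1 : Nat.card {p : Fin 7 × Fin 7 // @LT.lt (Fin 7) P.toLT p.1 p.2} =
        prs.toFinset.card := by
      apply Nat.subtype_card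
      intro p
      rw [List.mem_toFinset]
      change p ∈ prs ↔ ltb p.1 p.2 = true
      unfold ltb
      simp
    rw [h1]
    decide
  · rw [ha, ha, counts.1, counts.2]
    norm_num
  · rw [ha, ha, counts.1, count6]
    norm_num

end Pool.Agent.Results.MP_880652_co.NotUnimodal
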